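import Pool.Agent.RFK.All

/-!
# MP_35334d_an: the infimum `m` is attained, and every function attaining it is Hölder continuous

Let `n ≥ 2` and `1/2 < σ < 1`.  Then Q1 has a positive answer: `m` is attained by a continuous
function, and every minimizer of `J` agrees almost everywhere with a Hölder continuous function
on `ℝⁿ`.

Idea of the proof.  For a minimizer `u` with `Ω = {u > 0}` nothing is known about `Ω`.
(1) Hardy's inequality `∬_{x ∉ Ω, y ∈ Ω} g(y)² K(x-y) ≤ C I_Ω[g]` holds for every measurable `Ω`
(also inside balls) by looking at the midpoint of `x` and `y`: it is either in `Ω` or not, and the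
two cases give the factor `2 · 2^(-2σ) < 1`.  (2) The same midpoint argument shows that a function
of bounded energy with values `≤ 1/4` and `≥ 1/2` on sets of positive measure has values in between
on a set of positive measure.  (3) The competitors `u - t (u-k)⁺ η²` give a Caccioppoli inequality
with a useful cross term, the competitor `max u (k η)` gives, by hole filling and (1), a lower
density lemma: if `u` is close to its maximum on most of a ball then `Ω` fills the half ball.
(4) Otherwise (2) and the cross term show that the maximum decays.  So the oscillation decays
geometrically at every point.  Existence: concentration compactness, with (1) for the bounds.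
-/

set_option autoImplicit false

open MeasureTheory

namespace Pool.Agent.Results.MP_35334d_an.ContinuousMinimizer

open RFK

/-- **Main result.** Let `n ≥ 2` and `1/2 < σ < 1`. The infimum of `J` over the admissible functions
is attained by a continuous function, and every minimizer agrees almost everywhere with a function
which is Hölder continuous on `ℝⁿ`. -/
theorem result : ∀ (n : ℕ) (σ : ℝ), 2 ≤ n → 1 / 2 < σ → σ < 1 →
    (∃ u : X n → ℝ, IsMin σ u ∧ Continuous u) ∧
    ∀ u : X n → ℝ, IsMin σ u → ∃ (g : X n → ℝ) (α C : ℝ), 0 < α ∧
      (∀ x y, |g x - g y| ≤ C * ‖x - y‖ ^ α) ∧ ∀ᵐ x, u x = g x :=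
  a_FIN

end Pool.Agent.Results.MP_35334d_an.ContinuousMinimizer
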